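import Mathlib
import Pool.Agent.P.MP_c9cfcf_pr.Esymm

/-!
The discrepancy between the two ways of sampling a matching pair is at most one half, for every
distribution on a finite or countable set of colours. All sums are taken in `[0, ∞]`, so every
series below has its honest value.
-/

open scoped ENNReal BigOperators

namespace Pool.Agent.Results.MP_c9cfcf_pr.DiscrepancyHalf

/-- Method 1: `P(X = i) = p_i ^ 2 / f_2` with `f_2 = ∑ p_j ^ 2`. -/
noncomputable def lawX {C : Type} (p : PMF C) (i : C) : ℝ≥0∞ :=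
  p i ^ 2 / ∑' j, p j ^ 2

/-- Method 2: `P(Y = i) = p_i ^ 2 ∑_k (k+1)! ∑_{J ⊆ C \ {i}, |J| = k} ∏_{j ∈ J} p_j`. -/
noncomputable def lawY {C : Type} (p : PMF C) (i : C) : ℝ≥0∞ :=
  p i ^ 2 * ∑' k : ℕ, ((k + 1).factorial : ℝ≥0∞) *
    ∑' J : {J : Finset C // i ∉ J ∧ J.card = k}, ∏ j ∈ J.1, p j

/-- The discrepancy `D(p) = (1/2) ∑_i |P(X = i) - P(Y = i)|`, with `|a - b| = max a b - min a b`. -/
noncomputable def disc {C : Type} (p : PMF C) : ℝ≥0∞ :=
  (1 / 2) * ∑' i, (max (lawX p i) (lawY p i) - min (lawX p i) (lawY p i))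

/-- `ℓ₀`: the supremum of the discrepancy over all distributions on countable colour sets. -/
noncomputable def ell0 : ℝ≥0∞ :=
  ⨆ (C : Type) (_ : Countable C) (p : PMF C), disc p

open Pool.Agent.P.MP_c9cfcf_pr in
theorem result : ell0 ≤ 1 / 2 := by
  classical
  refine iSup_le fun C => iSup_le fun _ => iSup_le fun p => ?_
  have hp : ∑' j, p j = 1 := p.tsum_coe
  have hY : ∀ i, lawY p i = p i ^ 2 * S p i := by
    intro i
    unfold lawY S F
    congr 2
    funext k
    congr 1
    refine (tsum_subtype {J : Finset C | i ∉ J ∧ J.card = k} (fun J => ∏ j ∈ J, p j)).trans ?_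
    congr 1
    funext J
    rw [Set.indicator_apply]
    congr
  have hle : ∀ i, max (lawX p i) (lawY p i) - min (lawX p i) (lawY p i) ≤ lawY p i := by
    intro i
    have h : lawX p i ≤ 2 * lawY p i := by rw [hY]; exact ratio_le p hp i
    rcases le_total (lawX p i) (lawY p i) with h1 | h1
    · rw [max_eq_right h1]; exact tsub_le_self
    · rw [max_eq_left h1, min_eq_right h1, tsub_le_iff_right, ← two_mul]; exact h
  unfold disc
  calc (1 / 2 : ℝ≥0∞) * ∑' i, (max (lawX p i) (lawY p i) - min (lawX p i) (lawY p i))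
      ≤ (1 / 2) * ∑' i, lawY p i := by gcongr; exact hle _
    _ ≤ (1 / 2) * 1 := by
        gcongr
        simp_rw [hY]
        exact total_le_one p hp
    _ = 1 / 2 := mul_one _

end Pool.Agent.Results.MP_c9cfcf_pr.DiscrepancyHalf
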